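import Mathlib

set_option autoImplicit false

namespace Pool.Agent.Work.MP_41a91a_an

open scoped Uniformity

/-- The closure of the two-sided orbit of `z`. -/
def orbitClosure {Z : Type} [TopologicalSpace Z] (S : Z ≃ₜ Z) (z : Z) : Set Z :=
  closure (Set.range fun n : ℤ => (S ^ n) z)

/-- Every two-sided orbit is dense. -/
def IsMinimalSystem {Z : Type} [TopologicalSpace Z] (S : Z ≃ₜ Z) : Prop :=
  ∀ z : Z, Dense (Set.range fun n : ℤ => (S ^ n) z)

/-- The orbit closure of `z` is a minimal subsystem: each of its points has a dense orbit in it. -/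
def IsMinimalPoint {Z : Type} [TopologicalSpace Z] (S : Z ≃ₜ Z) (z : Z) : Prop :=
  ∀ w ∈ orbitClosure S z, orbitClosure S z ⊆ orbitClosure S w

/-- The map `T × T² × ⋯ × T^d` on `X^d`. -/
def tau {X : Type} [TopologicalSpace X] (T : X ≃ₜ X) (d : ℕ) : (Fin d → X) ≃ₜ (Fin d → X) :=
  Homeomorph.piCongrRight fun j : Fin d => T ^ (j.val + 1)

/-- `f` is a factor map from `(Y, S)` onto `(X, T)`. -/
def IsFactorMap {Y X : Type} [TopologicalSpace Y] [TopologicalSpace X] (S : Y ≃ₜ Y) (T : X ≃ₜ X)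
    (f : Y → X) : Prop :=
  Continuous f ∧ Function.Surjective f ∧ ∀ y, f (S y) = T (f y)

/-- Any two points in one fibre of `f` are proximal. -/
def IsProximalExt {Y X : Type} [UniformSpace Y] (S : Y ≃ₜ Y) (f : Y → X) : Prop :=
  ∀ y y', f y = f y' → ∀ ε ∈ 𝓤 Y, ∃ n : ℤ, ((S ^ n) y, (S ^ n) y') ∈ ε

/-- The action is uniformly equicontinuous on the fibres of `f`. -/
def IsEquicontinuousExt {Y X : Type} [UniformSpace Y] (S : Y ≃ₜ Y) (f : Y → X) : Prop :=
  ∀ ε ∈ 𝓤 Y, ∃ δ ∈ 𝓤 Y, ∀ y y', f y = f y' → (y, y') ∈ δ → ∀ n : ℤ, ((S ^ n) y, (S ^ n) y') ∈ ε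

/-- `(X, T)` has a proximal extension that is the top of a transfinite tower `(W α, S α)`,
`α ≤ η`, of compact Hausdorff systems which starts at the trivial system, whose successor steps are
proximal or equicontinuous extensions and whose limit steps are inverse limits. -/
def IsPI {X : Type} [TopologicalSpace X] (T : X ≃ₜ X) : Prop :=
  ∃ (η : Ordinal.{0}) (W : Ordinal.{0} → Type) (_ : ∀ α, UniformSpace (W α))
    (S : ∀ α, W α ≃ₜ W α) (φ : ∀ α β, W β → W α) (θ : W η → X),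
    (∀ α ≤ η, CompactSpace (W α) ∧ T2Space (W α)) ∧
    (∀ α β, α ≤ β → β ≤ η → IsFactorMap (S β) (S α) (φ α β)) ∧
    (∀ α β γ, α ≤ β → β ≤ γ → γ ≤ η → ∀ w, φ α β (φ β γ w) = φ α γ w) ∧
    (∀ w w' : W 0, w = w') ∧
    (∀ α < η, IsProximalExt (S (α + 1)) (φ α (α + 1)) ∨
      IsEquicontinuousExt (S (α + 1)) (φ α (α + 1))) ∧
    (∀ l ≤ η, Order.IsSuccLimit l →
      (∀ w w' : W l, (∀ α < l, φ α l w = φ α l w') → w = w') ∧
      ∀ x : ∀ α, W α, (∀ α β, α ≤ β → β < l → φ α β (x β) = x α) →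
        ∃ w : W l, ∀ α < l, φ α l w = x α) ∧
    IsFactorMap (S η) T θ ∧ IsProximalExt (S η) θ

end Pool.Agent.Work.MP_41a91a_an
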