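import Pool.Agent.Work.MP_41a91a_an.Tower

set_option autoImplicit false
set_option linter.unusedSectionVars false

namespace Pool.Agent.Work.MP_41a91a_an

open Set Filter Topology

section
variable {X : Type} [TopologicalSpace X] [CompactSpace X] [T2Space X] {T : X ≃ₜ X}

/-- Glasner's theorem: the diagonal lies in the orbit closure of every point of `N_d(X)`. -/
theorem glasner_aux (hT : IsMinimalSystem T) {J : Type} (c : J → ℤ) (x : X) (z : J → X)
    (hz : z ∈ closure (range fun b : ℤ => fun j => (T ^ (c j * b)) x)) :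
    (fun _ => x) ∈ closure (range fun ab : ℤ × ℤ => fun j => (T ^ (ab.1 + c j * ab.2)) (z j)) := by
  obtain ⟨I, hI, hne, hcl, h1, h2⟩ := exists_ideal T
  obtain ⟨u, hu, -, hux⟩ := exists_idem (S := T) (S' := T) (f := id) ⟨continuous_id, fun _ _ => rfl⟩
    hI hne hcl h1 (z := x) (minimal_of fun w _ => hT w x)
  replace hux : u.ap x = x := hux
  let G : Set (J → En X) := range fun ab : ℤ × ℤ => fun j => En.of (T ^ (ab.1 + c j * ab.2))
  have cr : ∀ r : J → En X, Continuous (· * r) := fun r =>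
    continuous_pi fun j => (En.cont_right (r j)).comp (continuous_apply j)
  have hmul : ∀ e ∈ closure G, ∀ e' ∈ closure G, e * e' ∈ closure G := by
    refine closure_mul_mem cr ?_ ?_
    · rintro _ ⟨ab, rfl⟩ _ ⟨ab', rfl⟩
      refine ⟨ab + ab', funext fun j => ?_⟩
      simp only [Pi.mul_apply, En.of_mul, ← zpow_add, Prod.fst_add, Prod.snd_add]
      congr 2; ring
    · rintro _ ⟨ab, rfl⟩
      exact continuous_pi fun j => (En.cont_left _).comp (continuous_apply j)
  have hcomp : ∀ e ∈ closure G, ∀ j, e j ∈ env T := fun e he j =>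
    map_mem_closure (f := fun e : J → En X => e j) (continuous_apply j) he
      (by rintro _ ⟨ab, rfl⟩; exact ⟨_, rfl⟩)
  have hu' : (fun _ : J => u) ∈ closure G :=
    map_mem_closure (f := fun (e : En X) (_ : J) => e) (continuous_pi fun _ => continuous_id)
      (hI hu) (by rintro _ ⟨n, rfl⟩; exact ⟨(n, 0), by simp⟩)
  set K := closure (range fun ab : ℤ × ℤ => fun j => (T ^ (ab.1 + c j * ab.2)) (z j)) with hK
  have cact : ∀ w : J → X, Continuous fun (e : J → En X) j => (e j).ap (w j) := fun w =>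
    continuous_pi fun j => (En.cont_ap (w j)).comp (continuous_apply j)
  have hKinv : ∀ e ∈ closure G, ∀ w ∈ K, (fun j => (e j).ap (w j)) ∈ K := by
    intro e he w hw
    have := map_mem_closure (t := K) (cact w) he (by
      rintro _ ⟨ab, rfl⟩
      refine map_mem_closure (f := fun (w : J → X) j => (T ^ (ab.1 + c j * ab.2)) (w j))
        (continuous_pi fun j => (T ^ (ab.1 + c j * ab.2)).continuous.comp (continuous_apply j))
        hw ?_
      rintro _ ⟨ab', rfl⟩
      refine ⟨ab + ab', funext fun j => ?_⟩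
      simp only [← zpow_add_apply, Prod.fst_add, Prod.snd_add]
      congr 2; ring)
    rwa [hK, closure_closure] at this
  have hzK : z ∈ K := subset_closure ⟨(0, 0), by simp⟩
  obtain ⟨e0, he0, he0z⟩ : z ∈ (fun (e : J → En X) j => (e j).ap x) '' closure G :=
    closure_minimal (by
      rintro _ ⟨b, rfl⟩
      exact ⟨_, subset_closure ⟨(0, b), rfl⟩, funext fun j => by simp [En.of_ap]⟩)
      ((cact fun _ => x).isClosedMap _ isClosed_closure) hz
  let A : Set (J → En X) := closure G ∩ {e | (fun j => (e j).ap x) ∈ K}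
  have hA : IsClosed A := isClosed_closure.inter (isClosed_closure.preimage (cact fun _ => x))
  have hAl : ∀ e ∈ closure G, ∀ a ∈ A, e * a ∈ A := fun e he a ha =>
    ⟨hmul e he a ha.1, hKinv e he _ ha.2⟩
  have hAu : ∀ a ∈ A, a * (fun _ => u) ∈ A := fun a ha => ⟨hmul a ha.1 _ hu', by
    have : (fun j => (a j * u).ap x) = fun j => (a j).ap x := funext fun j => by
      rw [En.mul_ap, hux]
    show (fun j => (a j * u).ap x) ∈ K
    rw [this]; exact ha.2⟩
  obtain ⟨_, ⟨a, ha, rfl⟩, hw⟩ := exists_idempotent_in_compact_subsemigroup cr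
    ((· * fun _ => u) '' A) ⟨_, e0, ⟨he0, by
      show (fun j => (e0 j).ap x) ∈ K
      rw [show (fun j => (e0 j).ap x) = z from he0z]; exact hzK⟩, rfl⟩
    ((cr _).isClosedMap _ hA).isCompact (by
      rintro _ ⟨a, ha, rfl⟩ _ ⟨a', ha', rfl⟩
      exact ⟨_, hAl _ (hAu a ha).1 a' ha', mul_assoc _ _ _⟩)
  have hv := (hAl _ hu' _ (hAu a ha)).2
  have : (fun j => (u * (a j * u)).ap x) = fun _ => x := by
    funext j
    obtain ⟨e, _, he⟩ := h2 _ (h1 _ (hcomp a ha.1 j) u hu) u hu
    have hwj : (a j * u) * (a j * u) = a j * u := congrFun hw j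
    have : u * (a j * u) = u := by
      conv_lhs => rw [he, mul_assoc, ← he, hwj]
      exact he.symm
    rw [this, hux]
  rw [← this]
  exact hv

theorem glasner (hT : IsMinimalSystem T) (d : ℕ) (x : X) {p : Fin d → X}
    (hp : p ∈ orbitClosure (tau T d) fun _ => x) {U : Set X} (hU : IsOpen U) (hne : U.Nonempty) :
    ∃ a b : ℤ, (T ^ a) x ∈ U ∧ ∀ j, (T ^ a) (((tau T d ^ b) p) j) ∈ U := by
  let c : Option (Fin d) → ℤ := fun o => o.elim 0 fun j => (j.val : ℤ) + 1
  have h := glasner_aux hT c x (fun o => o.elim x p) (by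
    refine map_mem_closure (f := fun (p : Fin d → X) (o : Option (Fin d)) => o.elim x p)
      (continuous_pi fun o => ?_) hp ?_
    · cases o with
      | none => exact continuous_const
      | some j => exact continuous_apply j
    · rintro _ ⟨n, rfl⟩
      refine ⟨n, funext fun o => ?_⟩
      cases o with
      | none => simp [c]
      | some j => exact (tau_zpow T d n (fun _ => x) j).symm)
  obtain ⟨_, ⟨a0, rfl⟩, ha0⟩ := (hT x).exists_mem_open hU hne
  obtain ⟨_, hw, ⟨ab, rfl⟩⟩ := mem_closure_iff.1 h (univ.pi fun _ => (T ^ a0) ⁻¹' U)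
    (isOpen_set_pi finite_univ fun _ _ => hU.preimage (T ^ a0).continuous) fun _ _ => ha0
  refine ⟨a0 + ab.1, ab.2, ?_, fun j => ?_⟩
  · have := hw none (mem_univ _)
    rw [zpow_add_apply]
    simpa [c] using this
  · have := hw (some j) (mem_univ _)
    rw [zpow_add_apply, tau_zpow, ← zpow_add_apply _ ab.1]
    exact this

end

theorem gap_of_minimal {Z : Type} [TopologicalSpace Z] [CompactSpace Z] {S : Z ≃ₜ Z} {m : Z}
    (hm : IsMinimalPoint S m) {V : Set Z} (hV : IsOpen V) (hmV : m ∈ V) :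
    ∃ F : Finset ℤ, ∀ n : ℤ, ∃ k ∈ F, (S ^ k) ((S ^ n) m) ∈ V := by
  obtain ⟨F, hF⟩ := (orb_closed (S := S) m).isCompact.elim_finite_subcover
    (fun k : ℤ => (S ^ k) ⁻¹' V) (fun k => hV.preimage (S ^ k).continuous) (by
      intro w hw
      obtain ⟨_, h1, ⟨k, rfl⟩⟩ := mem_closure_iff.1 (hm.mem hw) V hV hmV
      exact mem_iUnion.2 ⟨k, h1⟩)
  refine ⟨F, fun n => ?_⟩
  obtain ⟨k, hk, h⟩ := mem_iUnion₂.1 (hF (mem_orb n m))
  exact ⟨k, hk, h⟩

theorem dense_union_compl_closure {X : Type} [TopologicalSpace X] {A B : Set X}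
    (h : ∀ V, IsOpen V → (V ∩ B).Nonempty → (V ∩ A).Nonempty) : Dense (A ∪ (closure B)ᶜ) := by
  rw [dense_iff_inter_open]
  rintro V hV ⟨v, hv⟩
  by_cases hvB : v ∈ closure B
  · obtain ⟨w, hw⟩ := h V hV (mem_closure_iff.1 hvB V hV hv)
    exact ⟨w, hw.1, Or.inl hw.2⟩
  · exact ⟨v, hv, Or.inr hvB⟩

theorem generic_mpt {X : Type} [MetricSpace X] [CompactSpace X] {T : X ≃ₜ X}
    (hT : IsMinimalSystem T) (d : ℕ) : ∀ᶠ x in residual X, MPt (tau T d) fun _ => x := by
  let L : X → Set (Fin d → X) := fun x => orbitClosure (tau T d) fun _ => x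
  let Γ : Set (X × (Fin d → X)) := closure {q | q.2 ∈ L q.1}
  let Ev : Set (Fin d → X) → Set X := fun V => {x | ∃ n : ℤ, (tau T d ^ n) (fun _ => x) ∈ V}
  have hEv : ∀ V, IsOpen V → IsOpen (Ev V) := fun V hV => by
    have : Ev V = ⋃ n : ℤ, (fun x => (tau T d ^ n) fun _ => x) ⁻¹' V := by
      ext x; simp [Ev]
    rw [this]
    exact isOpen_iUnion fun n => hV.preimage
      ((tau T d ^ n).continuous.comp (continuous_pi fun _ => continuous_id))
  have gen1 : ∀ᶠ x in residual X, ∀ p, (x, p) ∈ Γ → p ∈ L x := by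
    have : ∀ᶠ x in residual X, ∀ V ∈ TopologicalSpace.countableBasis (Fin d → X),
        x ∈ Ev V ∪ (closure (Ev V))ᶜ := by
      rw [eventually_countable_ball (TopologicalSpace.countable_countableBasis _)]
      intro V hV
      exact residual_of_dense_open ((hEv V (TopologicalSpace.isOpen_of_mem_countableBasis hV)).union
        isClosed_closure.isOpen_compl) (dense_union_compl_closure fun _ _ h => h)
    filter_upwards [this] with x hx p hp
    refine ((TopologicalSpace.isBasis_countableBasis _).mem_closure_iff).2 fun V hV hpV => ?_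
    have hVo := TopologicalSpace.isOpen_of_mem_countableBasis hV
    rcases hx V hV with ⟨n, hn⟩ | hn
    · exact ⟨_, hn, n, rfl⟩
    · refine absurd (mem_closure_iff.2 fun N hN hxN => ?_) hn
      obtain ⟨⟨x', p'⟩, ⟨h1, h2⟩, h3⟩ := mem_closure_iff.1 hp (N ×ˢ V) (hN.prod hVo) ⟨hxN, hpV⟩
      obtain ⟨_, h4, ⟨n, rfl⟩⟩ := mem_closure_iff.1 h3 V hVo h2
      exact ⟨x', h1, n, h4⟩
  let Gap : Set X → Finset ℤ → Set (Fin d → X) := fun U F =>
    {p | ∀ n : ℤ, ∃ k ∈ F, (tau T d ^ k) ((tau T d ^ n) p) ∈ univ.pi fun _ => closure U}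
  have hGap : ∀ U F, IsClosed (Gap U F) := fun U F => by
    have : Gap U F = ⋂ n : ℤ, ⋃ k ∈ F,
        (fun p => (tau T d ^ k) ((tau T d ^ n) p)) ⁻¹' univ.pi fun _ => closure U := by
      ext p; simp [Gap]
    rw [this]
    exact isClosed_iInter fun n => isClosed_biUnion_finset fun k _ =>
      (isClosed_set_pi fun _ _ => isClosed_closure).preimage
        ((tau T d ^ k).continuous.comp (tau T d ^ n).continuous)
  have hGapInv : ∀ U F, Inv (tau T d) (Gap U F) := fun U F n p hp m => by
    rw [← zpow_add_apply _ m]; exact hp _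
  let A : Set X → Finset ℤ → Set X := fun U F => Prod.fst '' (Γ ∩ Prod.snd ⁻¹' Gap U F)
  have hA : ∀ U F, IsClosed (A U F) := fun U F =>
    continuous_fst.isClosedMap _ (isClosed_closure.inter ((hGap U F).preimage continuous_snd))
  have gen2 : ∀ᶠ x in residual X, ∀ U ∈ TopologicalSpace.countableBasis X,
      x ∈ (⋃ F, interior (A U F)) ∪ (closure U)ᶜ := by
    rw [eventually_countable_ball (TopologicalSpace.countable_countableBasis _)]
    intro U hU
    have hUo := TopologicalSpace.isOpen_of_mem_countableBasis hU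
    refine residual_of_dense_open ((isOpen_iUnion fun _ => isOpen_interior).union
      isClosed_closure.isOpen_compl) (dense_union_compl_closure fun V hV hne => ?_)
    have : Nonempty X := ⟨hne.some⟩
    obtain ⟨⟨a, F⟩, y, hy⟩ := nonempty_interior_of_iUnion_of_closed
      (f := fun aF : ℤ × Finset ℤ => (T ^ aF.1) ⁻¹' (closure (V ∩ U) ∩ A U aF.2))
      (fun aF => (isClosed_closure.inter (hA U aF.2)).preimage (T ^ aF.1).continuous) (by
        refine eq_univ_of_forall fun x => ?_
        obtain ⟨p, hp, hpm⟩ := exists_minimal (tau T d) fun _ => x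
        obtain ⟨a, b, h1, h2⟩ := glasner hT d x hp (hV.inter hUo) hne
        have hσ : Eqv (tau T d) (tau T d) fun p j => (T ^ a) (p j) :=
          Eqv.pi ⟨(T ^ a).continuous, fun n z => by
            rw [← zpow_add_apply, ← zpow_add_apply, add_comm]⟩ d
        have hm := hσ.minimal (hpm.of_mem (mem_orb b p))
        have hmL := hσ.map_orb (orb_inv _ b p hp)
        obtain ⟨F, hF⟩ := gap_of_minimal hm (V := univ.pi fun _ => U)
          (isOpen_set_pi finite_univ fun _ _ => hUo) fun j _ => (h2 j).2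
        refine mem_iUnion.2 ⟨(a, F), subset_closure h1, ((T ^ a) x, _), ⟨subset_closure hmL, ?_⟩, rfl⟩
        intro n
        obtain ⟨k, hk, h⟩ := hF n
        exact ⟨k, hk, fun j hj => subset_closure (h j hj)⟩)
    rw [← Homeomorph.preimage_interior] at hy
    obtain ⟨w, hw1, hw2⟩ := mem_closure_iff.1 (interior_subset hy).1 _ isOpen_interior hy
    exact ⟨w, hw2.1, mem_iUnion.2 ⟨F, interior_mono inter_subset_right hw1⟩⟩
  filter_upwards [gen1, gen2] with x h1 h2
  refine Metric.mem_closure_iff.2 fun ε hε => ?_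
  obtain ⟨U, hU, hxU, hUb⟩ := (TopologicalSpace.isBasis_countableBasis X).exists_subset_of_mem_open
    (Metric.mem_ball_self (x := x) (half_pos hε)) Metric.isOpen_ball
  rcases h2 U hU with h | h
  · obtain ⟨F, hF⟩ := mem_iUnion.1 h
    obtain ⟨⟨x', p⟩, ⟨hp1, hp2⟩, rfl⟩ := interior_subset hF
    obtain ⟨m, hm, hmm⟩ := exists_minimal (tau T d) p
    obtain ⟨k, _, hk⟩ := orb_subset (hGap U F) (hGapInv U F) hp2 hm 0
    rw [zpow_zero, Homeomorph.one_apply] at hk
    refine ⟨_, ⟨orb_inv _ k m (orb_mono (h1 p hp1) hm), hmm.of_mem (mem_orb k m)⟩, ?_⟩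
    refine lt_of_le_of_lt ((dist_pi_le_iff (half_pos hε).le).2 fun j => ?_) (half_lt_self hε)
    have := Metric.closure_ball_subset_closedBall (closure_mono hUb (hk j (mem_univ _)))
    rwa [Metric.mem_closedBall, dist_comm] at this
  · exact absurd (subset_closure hxU) h

theorem main {X : Type} [MetricSpace X] [CompactSpace X] {T : X ≃ₜ X}
    (hT : IsMinimalSystem T) (hPI : IsPI T) :
    ∀ᶠ x in residual X, ∀ d : ℕ, IsMinimalPoint (tau T d) fun _ => x := by
  rw [eventually_countable_forall]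
  intro d
  exact (generic_mpt hT d).mono fun x hx => pi_minimal hPI d hx

end Pool.Agent.Work.MP_41a91a_an
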