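import Pool.Agent.Work.MP_41a91a_an.Defs

-- merged part: Pool.Agent.Work.MP_41a91a_an.Basic
section
set_option autoImplicit false
set_option linter.unusedSectionVars false

namespace Pool.Agent.Work.MP_41a91a_an

open Set Filter Topology

theorem chain_inter {Z : Type} [TopologicalSpace Z] [CompactSpace Z] (c : Set (Set Z))
    (hne : c.Nonempty) (hc : IsChain (· ⊆ ·) c) (hcl : ∀ s ∈ c, IsClosed s) {F : Set Z}
    (hF : IsClosed F) (h : ∀ s ∈ c, (s ∩ F).Nonempty) : (⋂₀ c ∩ F).Nonempty := by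
  have := hne.coe_sort
  have := IsCompact.nonempty_iInter_of_directed_nonempty_isCompact_isClosed
    (fun s : c => (s : Set Z) ∩ F) (fun s t => by
      rcases hc.total s.2 t.2 with h | h
      · exact ⟨s, subset_rfl, inter_subset_inter_left _ h⟩
      · exact ⟨t, inter_subset_inter_left _ h, subset_rfl⟩)
    (fun s => h s s.2) (fun s => ((hcl s s.2).inter hF).isCompact)
    (fun s => (hcl s s.2).inter hF)
  obtain ⟨z, hz⟩ := this
  rw [mem_iInter] at hz
  obtain ⟨s, hs⟩ := hne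
  exact ⟨z, fun t ht => (hz ⟨t, ht⟩).1, (hz ⟨s, hs⟩).2⟩

section semigroup
variable {M : Type} [Semigroup M] [TopologicalSpace M] [T2Space M] [CompactSpace M]

theorem closure_mul_mem (hc : ∀ r : M, Continuous (· * r)) {G : Set M}
    (hG : ∀ g ∈ G, ∀ g' ∈ G, g * g' ∈ G) (hl : ∀ g ∈ G, Continuous (g * ·)) :
    ∀ e ∈ closure G, ∀ e' ∈ closure G, e * e' ∈ closure G := by
  intro e he e' he'
  have := map_mem_closure (f := (· * e')) (t := closure G) (hc e') he fun g hg =>
    map_mem_closure (f := (g * ·)) (hl g hg) he' fun g' hg' => hG g hg g' hg'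
  rwa [closure_closure] at this

theorem exists_min_ideal (hc : ∀ r : M, Continuous (· * r)) {E : Set M} (hE : IsClosed E)
    (hne : E.Nonempty) (hmul : ∀ e ∈ E, ∀ e' ∈ E, e * e' ∈ E) :
    ∃ I ⊆ E, I.Nonempty ∧ IsClosed I ∧ (∀ e ∈ E, ∀ i ∈ I, e * i ∈ I) ∧
      ∀ w ∈ I, ∀ p ∈ I, ∃ e ∈ E, p = e * w := by
  obtain ⟨I, hIE, hI⟩ := zorn_superset_nonempty
    {I : Set M | IsClosed I ∧ I.Nonempty ∧ ∀ e ∈ E, ∀ i ∈ I, e * i ∈ I} (by
      intro c hcs hc hne
      refine ⟨⋂₀ c, ⟨isClosed_sInter fun s hs => (hcs hs).1, ?_, ?_⟩,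
        fun s hs => sInter_subset_of_mem hs⟩
      · have := chain_inter c hne hc (fun s hs => (hcs hs).1) isClosed_univ
          (fun s hs => by rw [inter_univ]; exact (hcs hs).2.1)
        rwa [inter_univ] at this
      · exact fun e he i hi s hs => (hcs hs).2.2 e he i (hi s hs)) E ⟨hE, hne, hmul⟩
  obtain ⟨h1, h2, h3⟩ := hI.prop
  refine ⟨I, hIE, h2, h1, h3, fun w hw p hp => ?_⟩
  have : (· * w) '' E = I := by
    apply hI.eq_of_subset
    · refine ⟨(hc w).isClosedMap _ hE, hne.image _, ?_⟩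
      rintro e he _ ⟨e', he', rfl⟩
      exact ⟨e * e', hmul e he e' he', mul_assoc _ _ _⟩
    · rintro _ ⟨e, he, rfl⟩
      exact h3 e he w hw
  rw [← this] at hp
  obtain ⟨e, he, rfl⟩ := hp
  exact ⟨e, he, rfl⟩

end semigroup

/-- Self-maps under composition with the topology of pointwise convergence. -/
def En (Z : Type) : Type := Z → Z

instance (Z : Type) : Semigroup (En Z) where
  mul f g := fun z => f (g z)
  mul_assoc _ _ _ := rfl

instance (Z : Type) [TopologicalSpace Z] : TopologicalSpace (En Z) :=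
  inferInstanceAs (TopologicalSpace (Z → Z))
instance (Z : Type) [TopologicalSpace Z] [T2Space Z] : T2Space (En Z) :=
  inferInstanceAs (T2Space (Z → Z))
instance (Z : Type) [TopologicalSpace Z] [CompactSpace Z] : CompactSpace (En Z) :=
  inferInstanceAs (CompactSpace (Z → Z))

/-- Evaluation. -/
def En.ap {Z : Type} (e : En Z) (z : Z) : Z := e z

/-- A homeomorphism as a self-map. -/
def En.of {Z : Type} [TopologicalSpace Z] (S : Z ≃ₜ Z) : En Z := fun z => S z

section
variable {Z Z' : Type} [TopologicalSpace Z] [TopologicalSpace Z']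

theorem En.mul_ap (e e' : En Z) (z : Z) : (e * e').ap z = e.ap (e'.ap z) := rfl

theorem En.of_ap (S : Z ≃ₜ Z) (z : Z) : (En.of S).ap z = S z := rfl

theorem En.cont_ap (z : Z) : Continuous fun e : En Z => e.ap z := continuous_apply z

theorem En.cont_right (r : En Z) : Continuous (· * r) :=
  continuous_pi fun z => continuous_apply (r z)

theorem En.cont_left (S : Z ≃ₜ Z) : Continuous (En.of S * ·) :=
  continuous_pi fun z => S.continuous.comp (continuous_apply z)

theorem En.of_mul (S S' : Z ≃ₜ Z) : En.of S * En.of S' = En.of (S * S') := rfl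

theorem zpow_add_apply (S : Z ≃ₜ Z) (m n : ℤ) (z : Z) : (S ^ (m + n)) z = (S ^ m) ((S ^ n) z) := by
  rw [zpow_add]; rfl

/-- The enveloping semigroup. -/
def env (S : Z ≃ₜ Z) : Set (En Z) := closure (range fun n : ℤ => En.of (S ^ n))

/-- Invariant sets. -/
def Inv (S : Z ≃ₜ Z) (K : Set Z) : Prop := ∀ n : ℤ, ∀ w ∈ K, (S ^ n) w ∈ K

variable {S : Z ≃ₜ Z} {S' : Z' ≃ₜ Z'}

theorem mem_orb (n : ℤ) (z : Z) : (S ^ n) z ∈ orbitClosure S z := subset_closure ⟨n, rfl⟩

theorem self_mem (z : Z) : z ∈ orbitClosure S z := by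
  simpa using mem_orb (S := S) 0 z

theorem orb_closed (z : Z) : IsClosed (orbitClosure S z) := isClosed_closure

theorem orb_subset {K : Set Z} (hK : IsClosed K) (hi : Inv S K) {z : Z} (hz : z ∈ K) :
    orbitClosure S z ⊆ K :=
  closure_minimal (by rintro _ ⟨n, rfl⟩; exact hi n z hz) hK

theorem Inv.closure {K : Set Z} (hi : Inv S K) : Inv S (closure K) := fun n _ hw =>
  map_mem_closure (S ^ n).continuous hw (hi n)

theorem orb_inv (z : Z) : Inv S (orbitClosure S z) := by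
  refine Inv.closure ?_
  rintro n _ ⟨m, rfl⟩
  exact ⟨n + m, zpow_add_apply _ _ _ _⟩

theorem orb_mono {z w : Z} (h : w ∈ orbitClosure S z) : orbitClosure S w ⊆ orbitClosure S z :=
  orb_subset (orb_closed z) (orb_inv z) h

theorem IsMinimalPoint.mem {z w : Z} (hz : IsMinimalPoint S z) (h : w ∈ orbitClosure S z) :
    z ∈ orbitClosure S w := hz w h (self_mem z)

theorem minimal_of {z : Z} (h : ∀ w ∈ orbitClosure S z, z ∈ orbitClosure S w) :
    IsMinimalPoint S z := fun w hw => orb_mono (h w hw)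

theorem IsMinimalPoint.of_mem {z w : Z} (hz : IsMinimalPoint S z) (h : w ∈ orbitClosure S z) :
    IsMinimalPoint S w := fun v hv => (orb_mono h).trans (hz v (orb_mono h hv))

/-- Equivariant continuous maps. -/
def Eqv (S : Z ≃ₜ Z) (S' : Z' ≃ₜ Z') (f : Z → Z') : Prop :=
  Continuous f ∧ ∀ (n : ℤ) z, f ((S ^ n) z) = (S' ^ n) (f z)

theorem eqv_of {f : Z → Z'} (hf : Continuous f) (h : ∀ z, f (S z) = S' (f z)) : Eqv S S' f := by
  refine ⟨hf, fun n => ?_⟩
  induction n using Int.induction_on with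
  | zero => intro z; simp
  | succ n ih =>
    intro z
    rw [zpow_add_apply, zpow_add_apply, zpow_one, zpow_one, ih, h]
  | pred n ih =>
    intro z
    rw [sub_eq_add_neg, zpow_add_apply, zpow_add_apply, ih]
    congr 1
    apply S'.injective
    rw [← h]
    simp

theorem Eqv.map_orb {f : Z → Z'} (hf : Eqv S S' f) {z w : Z} (h : w ∈ orbitClosure S z) :
    f w ∈ orbitClosure S' (f z) :=
  map_mem_closure hf.1 h (by rintro _ ⟨n, rfl⟩; exact ⟨n, (hf.2 n z).symm⟩)

variable [CompactSpace Z] [T2Space Z] [T2Space Z']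

theorem Eqv.lift_orb {f : Z → Z'} (hf : Eqv S S' f) {z : Z} {w' : Z'}
    (h : w' ∈ orbitClosure S' (f z)) : ∃ w ∈ orbitClosure S z, f w = w' := by
  have : orbitClosure S' (f z) ⊆ f '' orbitClosure S z :=
    closure_minimal (by rintro _ ⟨n, rfl⟩; exact ⟨_, mem_orb n z, hf.2 n z⟩)
      (hf.1.isClosedMap _ (orb_closed z))
  exact this h

theorem Eqv.minimal {f : Z → Z'} (hf : Eqv S S' f) {z : Z} (hz : IsMinimalPoint S z) :
    IsMinimalPoint S' (f z) := by
  refine minimal_of fun w' hw' => ?_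
  obtain ⟨w, hw, rfl⟩ := hf.lift_orb hw'
  exact hf.map_orb (hz.mem hw)

theorem env_mul : ∀ e ∈ env S, ∀ e' ∈ env S, e * e' ∈ env S := by
  refine closure_mul_mem En.cont_right ?_ ?_
  · rintro _ ⟨m, rfl⟩ _ ⟨n, rfl⟩
    exact ⟨m + n, by simp only [En.of_mul, zpow_add]⟩
  · rintro _ ⟨m, rfl⟩
    exact En.cont_left _

theorem env_ap {e : En Z} (he : e ∈ env S) (z : Z) : e.ap z ∈ orbitClosure S z :=
  map_mem_closure (f := fun e : En Z => e.ap z) (En.cont_ap z) he
    (by rintro _ ⟨n, rfl⟩; exact ⟨n, rfl⟩)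

theorem exists_env {z w : Z} (h : w ∈ orbitClosure S z) : ∃ e ∈ env S, e.ap z = w := by
  have : orbitClosure S z ⊆ (fun e : En Z => e.ap z) '' env S :=
    closure_minimal (by rintro _ ⟨n, rfl⟩; exact ⟨_, subset_closure ⟨n, rfl⟩, rfl⟩)
      ((En.cont_ap z).isClosedMap _ isClosed_closure)
  exact this h

theorem exists_ideal (S : Z ≃ₜ Z) : ∃ I ⊆ env S, I.Nonempty ∧ IsClosed I ∧
    (∀ e ∈ env S, ∀ i ∈ I, e * i ∈ I) ∧ ∀ w ∈ I, ∀ p ∈ I, ∃ e ∈ env S, p = e * w :=
  exists_min_ideal En.cont_right isClosed_closure ⟨_, subset_closure ⟨0, rfl⟩⟩ env_mul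

theorem ideal_minimal {I : Set (En Z)} (h1 : ∀ e ∈ env S, ∀ i ∈ I, e * i ∈ I)
    (h2 : ∀ w ∈ I, ∀ p ∈ I, ∃ e ∈ env S, p = e * w) {i : En Z} (hi : i ∈ I) (z : Z) :
    IsMinimalPoint S (i.ap z) := by
  refine minimal_of fun w hw => ?_
  obtain ⟨e, he, rfl⟩ := exists_env hw
  obtain ⟨e', he', h⟩ := h2 _ (h1 e he i hi) i hi
  have : i.ap z = e'.ap (e.ap (i.ap z)) := by
    conv_lhs => rw [h]
    rfl
  have h3 := env_ap he' (e.ap (i.ap z))
  rwa [← this] at h3

theorem exists_minimal (S : Z ≃ₜ Z) (z : Z) : ∃ m ∈ orbitClosure S z, IsMinimalPoint S m := by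
  obtain ⟨I, hI, ⟨i, hi⟩, _, h1, h2⟩ := exists_ideal S
  exact ⟨i.ap z, env_ap (hI hi) z, ideal_minimal h1 h2 hi z⟩

theorem Eqv.env_fiber {f : Z → Z'} (hf : Eqv S S' f) {e : En Z} (he : e ∈ env S) {z z' : Z}
    (h : f z = f z') : f (e.ap z) = f (e.ap z') := by
  refine closure_minimal (s := range fun n : ℤ => En.of (S ^ n))
    (t := {e : En Z | f (e.ap z) = f (e.ap z')}) ?_
    (isClosed_eq (hf.1.comp (En.cont_ap z)) (hf.1.comp (En.cont_ap z'))) he
  rintro _ ⟨n, rfl⟩
  show f ((S ^ n) z) = f ((S ^ n) z')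
  rw [hf.2, hf.2, h]

/-- An idempotent of a minimal left ideal fixing the image of a point. -/
theorem exists_idem {f : Z → Z'} (hf : Eqv S S' f) {I : Set (En Z)} (hI : I ⊆ env S)
    (hne : I.Nonempty) (hcl : IsClosed I) (h1 : ∀ e ∈ env S, ∀ i ∈ I, e * i ∈ I) {z : Z}
    (hz : IsMinimalPoint S' (f z)) : ∃ u ∈ I, u * u = u ∧ f (u.ap z) = f z := by
  obtain ⟨u, hu, huu⟩ := exists_idempotent_in_compact_subsemigroup En.cont_right
    (I ∩ {e | f (e.ap z) = f z}) (by
      obtain ⟨i, hi⟩ := hne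
      obtain ⟨w, hw, hfw⟩ := hf.lift_orb (hz.mem (hf.map_orb (env_ap (hI hi) z)))
      obtain ⟨e, he, rfl⟩ := exists_env hw
      exact ⟨e * i, h1 e he i hi, hfw⟩)
    (hcl.inter (isClosed_eq (hf.1.comp (En.cont_ap z)) continuous_const)).isCompact (by
      rintro e ⟨he, he'⟩ e' ⟨he2, he2'⟩
      exact ⟨h1 e (hI he) e' he2, (hf.env_fiber (hI he) he2').trans he'⟩)
  exact ⟨u, hu.1, huu, hu.2⟩

theorem distal_lift {f : Z → Z'} (hf : Eqv S S' f)
    (hd : ∀ u ∈ env S, ∀ z z', f z = f z' → u.ap z = u.ap z' → z = z') {z : Z}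
    (hz : IsMinimalPoint S' (f z)) : IsMinimalPoint S z := by
  obtain ⟨I, hI, hne, hcl, h1, h2⟩ := exists_ideal S
  obtain ⟨u, hu, huu, hfu⟩ := exists_idem hf hI hne hcl h1 hz
  have : u.ap z = z := hd u (hI hu) _ _ hfu (by rw [← En.mul_ap, huu])
  rw [← this]
  exact ideal_minimal h1 h2 hu z

/-- Points whose orbit closure has a dense set of minimal points. -/
def MPt (S : Z ≃ₜ Z) (z : Z) : Prop := z ∈ closure {m | m ∈ orbitClosure S z ∧ IsMinimalPoint S m}

theorem Eqv.mpt {f : Z → Z'} (hf : Eqv S S' f) {z : Z} (hz : MPt S z) : MPt S' (f z) :=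
  map_mem_closure hf.1 hz fun _ hm => ⟨hf.map_orb hm.1, hf.minimal hm.2⟩

theorem prox_lift {f : Z → Z'} (hf : Eqv S S' f)
    (hp : ∀ m m', IsMinimalPoint S m → IsMinimalPoint S m' → f m = f m' → m ∈ orbitClosure S m')
    {z : Z} (hM : MPt S z) (hz : IsMinimalPoint S' (f z)) : IsMinimalPoint S z := by
  obtain ⟨m0, hm0, hmin⟩ := exists_minimal S z
  refine hmin.of_mem (closure_minimal ?_ (orb_closed m0) hM)
  rintro m ⟨hm, hmm⟩
  obtain ⟨m', hm', hfm⟩ := hf.lift_orb (hz _ (hf.map_orb hm0) (hf.map_orb hm))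
  exact orb_mono hm' (hp m m' hmm (hmin.of_mem hm') hfm.symm)

theorem mpt_lift {f : Z → Z'} (hf : Eqv S S' f) (hs : Function.Surjective f) {z' : Z'}
    (hz : MPt S' z') : ∃ z, MPt S z ∧ f z = z' := by
  have hcl : IsClosed (f ⁻¹' {z'}) := isClosed_singleton.preimage hf.1
  obtain ⟨K, _, hK⟩ := zorn_superset_nonempty
    {K : Set Z | IsClosed K ∧ Inv S K ∧ (K ∩ f ⁻¹' {z'}).Nonempty} (by
      intro c hcs hc hne
      exact ⟨⋂₀ c, ⟨isClosed_sInter fun s hs => (hcs hs).1,
        fun n w hw s hs => (hcs hs).2.1 n w (hw s hs),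
        chain_inter c hne hc (fun s hs => (hcs hs).1) hcl fun s hs => (hcs hs).2.2⟩,
        fun s hs => sInter_subset_of_mem hs⟩) univ
    ⟨isClosed_univ, fun _ _ _ => mem_univ _, by
      obtain ⟨z, hz⟩ := hs z'
      exact ⟨z, mem_univ _, hz⟩⟩
  obtain ⟨h1, h2, p, hp, hfp⟩ := hK.prop
  have hfp' : f p = z' := hfp
  have e1 : orbitClosure S p = K :=
    hK.eq_of_subset ⟨orb_closed p, orb_inv p, p, self_mem p, hfp⟩ (orb_subset h1 h2 hp)
  refine ⟨p, ?_, hfp'⟩
  have e2 : closure {m | m ∈ orbitClosure S p ∧ IsMinimalPoint S m} = K := by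
    refine hK.eq_of_subset ⟨isClosed_closure, Inv.closure ?_, ?_⟩
      (e1 ▸ closure_minimal (fun m hm => hm.1) (orb_closed p))
    · exact fun n w hw => ⟨orb_inv p n w hw.1, hw.2.of_mem (mem_orb n w)⟩
    · have : z' ∈ f '' closure {m | m ∈ orbitClosure S p ∧ IsMinimalPoint S m} := by
        refine closure_minimal ?_ (hf.1.isClosedMap _ isClosed_closure) hz
        rintro m' ⟨hm', hmin⟩
        rw [← hfp'] at hm'
        obtain ⟨w, hw, rfl⟩ := hf.lift_orb hm'
        obtain ⟨m, hm, hmm⟩ := exists_minimal S w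
        obtain ⟨v, hv, hfv⟩ := hf.lift_orb (hmin.mem (hf.map_orb hm))
        exact ⟨v, subset_closure ⟨orb_mono hw (orb_mono hm hv), hmm.of_mem hv⟩, hfv⟩
      obtain ⟨v, hv, hfv⟩ := this
      exact ⟨v, hv, hfv⟩
  unfold MPt
  rw [e2]; exact hp

end

end Pool.Agent.Work.MP_41a91a_an
end

-- merged part: Pool.Agent.Work.MP_41a91a_an.Tower
section
set_option autoImplicit false
set_option linter.unusedSectionVars false

namespace Pool.Agent.Work.MP_41a91a_an

open Set Filter Topology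
open scoped Uniformity

section
variable {X Y : Type} [TopologicalSpace X] [TopologicalSpace Y]

theorem eqv_proj (T : X ≃ₜ X) (d : ℕ) (j : Fin d) :
    Eqv (tau T d) (T ^ (j.val + 1)) fun p => p j :=
  eqv_of (continuous_apply j) fun _ => rfl

theorem tau_zpow (T : X ≃ₜ X) (d : ℕ) (n : ℤ) (p : Fin d → X) (j : Fin d) :
    ((tau T d ^ n) p) j = (T ^ (((j.val : ℤ) + 1) * n)) (p j) := by
  have : ((tau T d ^ n) p) j = ((T ^ (j.val + 1)) ^ n) (p j) := (eqv_proj T d j).2 n p
  rw [this, zpow_mul]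
  norm_cast

theorem IsFactorMap.eqv {S : Y ≃ₜ Y} {T : X ≃ₜ X} {f : Y → X} (hf : IsFactorMap S T f) :
    Eqv S T f := eqv_of hf.1 hf.2.2

theorem Eqv.pi {S : Y ≃ₜ Y} {T : X ≃ₜ X} {f : Y → X} (hf : Eqv S T f) (d : ℕ) :
    Eqv (tau S d) (tau T d) fun p j => f (p j) := by
  refine ⟨continuous_pi fun j => hf.1.comp (continuous_apply j), fun n p => funext fun j => ?_⟩
  show f (((tau S d ^ n) p) j) = _
  rw [tau_zpow, tau_zpow, hf.2]

end

section
variable {X Y : Type} [TopologicalSpace X] [T2Space X] [UniformSpace Y] [CompactSpace Y]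
  [T2Space Y] {S : Y ≃ₜ Y} {T : X ≃ₜ X} {f : Y → X}

theorem prox_mul (hp : IsProximalExt S f) {y y' : Y} (h : f y = f y') (k : ℕ) {ε : Set (Y × Y)}
    (hε : ε ∈ 𝓤 Y) : ∃ n : ℤ, ((S ^ (((k : ℤ) + 1) * n)) y, (S ^ (((k : ℤ) + 1) * n)) y') ∈ ε := by
  have hδ : (⋂ r ∈ Finset.range (k + 1),
      Prod.map (S ^ (-(r : ℤ))) (S ^ (-(r : ℤ))) ⁻¹' ε) ∈ 𝓤 Y := by
    rw [biInter_finset_mem]
    intro r _
    exact (CompactSpace.uniformContinuous_of_continuous (S ^ (-(r : ℤ))).continuous) hε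
  obtain ⟨n, hn⟩ := hp y y' h _ hδ
  have hk : (0 : ℤ) < (k : ℤ) + 1 := by positivity
  refine ⟨n / ((k : ℤ) + 1), ?_⟩
  have h1 := Int.emod_nonneg n hk.ne'
  have h2 := Int.emod_lt_of_pos n hk
  have h3 := Int.mul_ediv_add_emod n ((k : ℤ) + 1)
  have h4 := mem_iInter₂.1 hn (n % ((k : ℤ) + 1)).toNat (Finset.mem_range.2 (by omega))
  have e : ((k : ℤ) + 1) * (n / ((k : ℤ) + 1)) = -((n % ((k : ℤ) + 1)).toNat : ℤ) + n := by
    rw [Int.toNat_of_nonneg h1]; linarith
  rw [e, zpow_add_apply, zpow_add_apply]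
  exact h4

theorem prox_step (hf : Eqv S T f) (hp : IsProximalExt S f) (d : ℕ) {z : Fin d → Y}
    (hM : MPt (tau S d) z) (hz : IsMinimalPoint (tau T d) fun j => f (z j)) :
    IsMinimalPoint (tau S d) z := by
  refine prox_lift (hf.pi d) (fun m m' hm _ hfm => ?_) hM hz
  obtain ⟨I, hI, ⟨u, hu⟩, _, h1, h2⟩ := exists_ideal (tau S d)
  have hab : u.ap m = u.ap m' := by
    funext j
    have hf2 := congrFun ((hf.pi d).env_fiber (hI hu) hfm) j
    obtain ⟨e, he, hej⟩ : ∃ e ∈ env (tau S d), e.ap (u.ap m) j = e.ap (u.ap m') j := by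
      by_contra hno
      push Not at hno
      have hc : Continuous fun e : En (Fin d → Y) => (e.ap (u.ap m) j, e.ap (u.ap m') j) :=
        ((continuous_apply j).comp (En.cont_ap _)).prodMk ((continuous_apply j).comp (En.cont_ap _))
      have hK : IsClosed ((fun e : En (Fin d → Y) => (e.ap (u.ap m) j, e.ap (u.ap m') j)) ''
          env (tau S d)) := hc.isClosedMap _ isClosed_closure
      have hmem : ((fun e : En (Fin d → Y) => (e.ap (u.ap m) j, e.ap (u.ap m') j)) ''
          env (tau S d))ᶜ ∈ 𝓤 Y := by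
        rw [← nhdsSet_diagonal_eq_uniformity]
        refine hK.isOpen_compl.mem_nhdsSet.2 ?_
        rintro ⟨a, b⟩ hab ⟨e, he, heq⟩
        have hab' : a = b := hab
        exact hno e he ((congrArg Prod.fst heq).trans (hab'.trans (congrArg Prod.snd heq).symm))
      obtain ⟨n, hn⟩ := prox_mul hp hf2 j.val hmem
      refine hn ⟨En.of (tau S d ^ n), subset_closure ⟨n, rfl⟩, ?_⟩
      simp only [En.of_ap, tau_zpow]
    obtain ⟨e', he', heq⟩ := h2 _ (h1 e he u hu) u hu
    have := (eqv_proj S d j).env_fiber he' hej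
    have e1 : ∀ x, e'.ap (e.ap (u.ap x)) = u.ap x := fun x => by
      conv_rhs => rw [heq]
      rfl
    rwa [e1, e1] at this
  exact orb_mono (hab ▸ env_ap (hI hu) m') (hm.mem (env_ap (hI hu) m))

theorem equi_step (hf : Eqv S T f) (hp : IsEquicontinuousExt S f) (d : ℕ) {z : Fin d → Y}
    (hz : IsMinimalPoint (tau T d) fun j => f (z j)) : IsMinimalPoint (tau S d) z := by
  refine distal_lift (hf.pi d) (fun u hu p p' hfp hup => ?_) hz
  funext j
  refine eq_of_uniformity fun {ε} hε => ?_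
  obtain ⟨δ, hδ, h⟩ := hp ε hε
  have hc : Continuous fun e : En (Fin d → Y) => (e.ap p j, e.ap p' j) :=
    ((continuous_apply j).comp (En.cont_ap _)).prodMk ((continuous_apply j).comp (En.cont_ap _))
  obtain ⟨_, hn, ⟨n, rfl⟩⟩ := mem_closure_iff.1 hu _ (isOpen_interior.preimage hc) (by
    show (u.ap p j, u.ap p' j) ∈ interior δ
    rw [hup]
    exact refl_mem_uniformity (interior_mem_uniformity hδ))
  have hn' : ((S ^ (((j.val : ℤ) + 1) * n)) (p j), (S ^ (((j.val : ℤ) + 1) * n)) (p' j)) ∈ δ := by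
    have := interior_subset hn
    simpa only [En.of_ap, tau_zpow] using this
  have := h _ _ (by rw [hf.2, hf.2, congrFun hfp j]) hn' (-(((j.val : ℤ) + 1) * n))
  rw [← zpow_add_apply, ← zpow_add_apply, neg_add_cancel, zpow_zero] at this
  exact this

end

/-- In a PI system every point of `X^d` with densely many minimal points in its orbit closure is
minimal. -/
theorem pi_minimal {X : Type} [TopologicalSpace X] [T2Space X] {T : X ≃ₜ X} (h : IsPI T) (d : ℕ)
    {z : Fin d → X} (hz : MPt (tau T d) z) : IsMinimalPoint (tau T d) z := by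
  obtain ⟨η, W, _, S, φ, θ, h1, h2, h3, h4, h5, h6, h7, -⟩ := h
  have key : ∀ α, α ≤ η → ∀ q : Fin d → W α, MPt (tau (S α) d) q →
      IsMinimalPoint (tau (S α) d) q := by
    intro α
    induction α using Ordinal.limitRecOn with
    | zero =>
      intro _ q _
      refine minimal_of fun w _ => ?_
      have : q = w := funext fun j => h4 _ _
      rw [this]; exact self_mem w
    | add_one α ih =>
      intro hα q hq
      have hlt : α < η := lt_of_lt_of_le (lt_add_one α) hα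
      obtain ⟨_, _⟩ := h1 α hlt.le
      obtain ⟨_, _⟩ := h1 (α + 1) hα
      have hf := (h2 α (α + 1) (lt_add_one α).le hα).eqv
      have hm := ih hlt.le _ ((hf.pi d).mpt hq)
      rcases h5 α hlt with hp | hp
      · exact prox_step hf hp d hq hm
      · exact equi_step hf hp d hm
    | limit l hl ih =>
      intro hα q hq
      obtain ⟨_, _⟩ := h1 l hα
      refine minimal_of fun w hw => ?_
      have hf : ∀ α < l, Eqv (tau (S l) d) (tau (S α) d) fun p j => φ α l (p j) := fun α hlt =>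
        (h2 α l hlt.le hα).eqv.pi d
      have : Nonempty {α // α < l} := ⟨⟨0, hl.bot_lt⟩⟩
      obtain ⟨v, hv⟩ := IsCompact.nonempty_iInter_of_directed_nonempty_isCompact_isClosed
        (fun α : {α // α < l} => orbitClosure (tau (S l) d) w ∩
          {v | (fun j => φ α.1 l (v j)) = fun j => φ α.1 l (q j)}) (by
          have mono : ∀ α β : {α // α < l}, α.1 ≤ β.1 → orbitClosure (tau (S l) d) w ∩
              {v | (fun j => φ β.1 l (v j)) = fun j => φ β.1 l (q j)} ⊆
              orbitClosure (tau (S l) d) w ∩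
              {v | (fun j => φ α.1 l (v j)) = fun j => φ α.1 l (q j)} := by
            rintro α β hab v ⟨hv1, hv2⟩
            refine ⟨hv1, funext fun j => ?_⟩
            rw [← h3 α β l hab β.2.le hα, ← h3 α β l hab β.2.le hα, congrFun hv2 j]
          intro α β
          rcases le_total α.1 β.1 with hab | hab
          · exact ⟨β, mono α β hab, subset_rfl⟩
          · exact ⟨α, subset_rfl, mono β α hab⟩) (by
          intro α
          obtain ⟨_, _⟩ := h1 α.1 (α.2.le.trans hα)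
          have hm := ih α.1 α.2 (α.2.le.trans hα) _ ((hf α.1 α.2).mpt hq)
          obtain ⟨v, hv, hfv⟩ := (hf α.1 α.2).lift_orb (hm.mem ((hf α.1 α.2).map_orb hw))
          exact ⟨v, hv, hfv⟩) (by
          intro α
          obtain ⟨_, _⟩ := h1 α.1 (α.2.le.trans hα)
          exact ((orb_closed w).inter (isClosed_eq (hf α.1 α.2).1 continuous_const)).isCompact) (by
          intro α
          obtain ⟨_, _⟩ := h1 α.1 (α.2.le.trans hα)
          exact (orb_closed w).inter (isClosed_eq (hf α.1 α.2).1 continuous_const))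
      rw [mem_iInter] at hv
      have : v = q := funext fun j => (h6 l hα hl).1 _ _ fun α hlt => congrFun (hv ⟨α, hlt⟩).2 j
      rw [← this]
      exact (hv ⟨0, hl.bot_lt⟩).1
  obtain ⟨_, _⟩ := h1 η le_rfl
  obtain ⟨p, hp, rfl⟩ := mpt_lift (h7.eqv.pi d) (fun x => by
    choose y hy using fun j => h7.2.1 (x j)
    exact ⟨y, funext hy⟩) hz
  exact (h7.eqv.pi d).minimal (key η le_rfl p hp)

end Pool.Agent.Work.MP_41a91a_an
end
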